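import Mathlib

set_option autoImplicit false

namespace Pool.Agent.Results.MP_4f92f0_co.Counter

open Finset

/-- A submodule of `R ^ 3`, `R = ZMod 25`, that is free of rank `r`. -/
def FreeRank (r : ℕ) (p : Submodule (ZMod 25) (Fin 3 → ZMod 25)) : Prop :=
  Nonempty (p ≃ₗ[ZMod 25] (Fin r → ZMod 25))

/-- The points of the projective Hjelmslev plane over `ZMod 25`. -/
def Point : Type := {p : Submodule (ZMod 25) (Fin 3 → ZMod 25) // FreeRank 1 p}

/-- Total multiplicity of a set of points. -/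
noncomputable def wt (K : Point → ℕ) (S : Set Point) : ℕ := ∑ᶠ p ∈ S, K p

/-- `(k, n)`-arcs. -/
def IsArc (K : Point → ℕ) (k n : ℕ) : Prop :=
  wt K Set.univ = k ∧
    ∀ L : Submodule (ZMod 25) (Fin 3 → ZMod 25), FreeRank 2 L → wt K {p | p.1 ≤ L} ≤ n

/-- maximal `(k, n)`-arcs. -/
def IsMaximalArc (K : Point → ℕ) (k n : ℕ) : Prop :=
  IsArc K k n ∧ ∀ (K' : Point → ℕ) (k' : ℕ), IsArc K' k' n → k' ≤ k

instance finPoint : Finite Point := by
  unfold Point
  have : Finite (Submodule (ZMod 25) (Fin 3 → ZMod 25)) :=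
    Finite.of_injective _ SetLike.coe_injective
  infer_instance

noncomputable instance ftPoint : Fintype Point := Fintype.ofFinite _

open Classical in
theorem wt_eq (K : Point → ℕ) (S : Set Point) :
    wt K S = ∑ p, if p ∈ S then K p else 0 := by
  rw [wt, ← sum_filter, ← finsum_mem_coe_finset]
  congr 1
  ext p
  simp

theorem unit_of (x : ZMod 25) (h : 5 * x ≠ 0) : ∃ y, y * x = 1 := by
  revert x; decide +kernel

theorem gen (p : Point) : ∃ v : Fin 3 → ZMod 25, (5 * v 0 ≠ 0 ∨ 5 * v 1 ≠ 0 ∨ 5 * v 2 ≠ 0) ∧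
    p.1 = Submodule.span (ZMod 25) {v} := by
  obtain ⟨e⟩ := p.2
  refine ⟨(e.symm fun _ => 1 : p.1), ?_, ?_⟩
  · by_contra h
    push Not at h
    have h1 : (5 : ZMod 25) • (e.symm fun _ => 1) = 0 := by
      ext i
      fin_cases i
      · exact h.1
      · exact h.2.1
      · exact h.2.2
    rw [← map_smul, map_eq_zero_iff _ e.symm.injective] at h1
    have := congrFun h1 0
    revert this; decide
  · apply le_antisymm
    · intro x hx
      rw [Submodule.mem_span_singleton]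
      refine ⟨e ⟨x, hx⟩ 0, ?_⟩
      rw [← Submodule.coe_smul, ← map_smul]
      have : (e ⟨x, hx⟩ 0 • fun _ => (1 : ZMod 25)) = e ⟨x, hx⟩ := by
        funext i; simp [Subsingleton.elim i 0]
      rw [this]; simp
    · rw [Submodule.span_le]; simp

theorem point_of (v : Fin 3 → ZMod 25) (h : 5 * v 0 ≠ 0 ∨ 5 * v 1 ≠ 0 ∨ 5 * v 2 ≠ 0) :
    FreeRank 1 (Submodule.span (ZMod 25) {v}) := by
  have hi : ∃ i y, y * v i = 1 := by
    rcases h with h | h | h
    · exact ⟨0, unit_of _ h⟩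
    · exact ⟨1, unit_of _ h⟩
    · exact ⟨2, unit_of _ h⟩
  obtain ⟨i, y, hy⟩ := hi
  have hinj : Function.Injective (LinearMap.toSpanSingleton (ZMod 25) _ v) := by
    rw [← LinearMap.ker_eq_bot, LinearMap.ker_eq_bot']
    intro t ht
    have := congrFun ht i
    simp only [LinearMap.toSpanSingleton_apply, Pi.smul_apply, smul_eq_mul, Pi.zero_apply] at this
    linear_combination y * this - t * hy
  rw [LinearMap.span_singleton_eq_range]
  exact ⟨(LinearEquiv.ofInjective _ hinj).symm.trans (LinearEquiv.funUnique (Fin 1) _ _).symm⟩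

theorem line_of (a : Fin 3 → ZMod 25) (h : 5 * a 0 ≠ 0 ∨ 5 * a 1 ≠ 0 ∨ 5 * a 2 ≠ 0) :
    ∃ L, FreeRank 2 L ∧ ∀ v : Fin 3 → ZMod 25, a 0 * v 0 + a 1 * v 1 + a 2 * v 2 = 0 → v ∈ L := by
  have key : ∀ M : Matrix (Fin 3) (Fin 2) (ZMod 25), (∀ s, M.mulVec s = 0 → s = 0) →
      FreeRank 2 (LinearMap.range M.mulVecLin) := by
    intro M hM
    have hinj : Function.Injective M.mulVecLin := by
      rw [← LinearMap.ker_eq_bot, LinearMap.ker_eq_bot']; exact hM
    exact ⟨(LinearEquiv.ofInjective _ hinj).symm⟩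
  rcases h with h | h | h
  · obtain ⟨y, hy⟩ := unit_of _ h
    refine ⟨_, key !![-y * a 1, -y * a 2; 1, 0; 0, 1] fun s hs => ?_, fun v hv => ⟨![v 1, v 2], ?_⟩⟩
    · have h1 := congrFun hs 1
      have h2 := congrFun hs 2
      simp [Matrix.mulVec, dotProduct] at h1 h2
      ext i; fin_cases i <;> assumption
    · ext i; fin_cases i <;> simp [Matrix.mulVec, dotProduct]
      linear_combination v 0 * hy - y * hv
  · obtain ⟨y, hy⟩ := unit_of _ h
    refine ⟨_, key !![1, 0; -y * a 0, -y * a 2; 0, 1] fun s hs => ?_, fun v hv => ⟨![v 0, v 2], ?_⟩⟩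
    · have h1 := congrFun hs 0
      have h2 := congrFun hs 2
      simp [Matrix.mulVec, dotProduct] at h1 h2
      ext i; fin_cases i <;> assumption
    · ext i; fin_cases i <;> simp [Matrix.mulVec, dotProduct]
      linear_combination v 1 * hy - y * hv
  · obtain ⟨y, hy⟩ := unit_of _ h
    refine ⟨_, key !![1, 0; 0, 1; -y * a 0, -y * a 1] fun s hs => ?_, fun v hv => ⟨![v 0, v 1], ?_⟩⟩
    · have h1 := congrFun hs 0
      have h2 := congrFun hs 1
      simp [Matrix.mulVec, dotProduct] at h1 h2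
      ext i; fin_cases i <;> assumption
    · ext i; fin_cases i <;> simp [Matrix.mulVec, dotProduct]
      linear_combination v 2 * hy - y * hv

theorem eq_of_line (L : Submodule (ZMod 25) (Fin 3 → ZMod 25)) (h : FreeRank 2 L) :
    ∃ a : Fin 3 → ZMod 25, (5 * a 0 ≠ 0 ∨ 5 * a 1 ≠ 0 ∨ 5 * a 2 ≠ 0) ∧
      ∀ v ∈ L, a 0 * v 0 + a 1 * v 1 + a 2 * v 2 = 0 := by
  obtain ⟨e⟩ := h
  set m : Fin 3 → ZMod 25 := (e.symm ![1, 0]).1 with hm
  set m' : Fin 3 → ZMod 25 := (e.symm ![0, 1]).1 with hm'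
  have hs : ∀ s t : ZMod 25, (e.symm ![s, t]).1 = s • m + t • m' := by
    intro s t
    have : ![s, t] = s • ![1, 0] + t • ![(0 : ZMod 25), 1] := by
      ext i; fin_cases i <;> simp
    rw [this, map_add, map_smul, map_smul]; rfl
  have hinj : ∀ s t : ZMod 25, s • m + t • m' = 0 → s = 0 ∧ t = 0 := by
    intro s t h
    rw [← hs, Submodule.coe_eq_zero, map_eq_zero_iff _ e.symm.injective] at h
    exact ⟨congrFun h 0, congrFun h 1⟩
  refine ⟨![m 1 * m' 2 - m 2 * m' 1, m 2 * m' 0 - m 0 * m' 2, m 0 * m' 1 - m 1 * m' 0], ?_, ?_⟩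
  · by_contra h
    push Not at h
    obtain ⟨h0, h1, h2⟩ := h
    simp only [Matrix.cons_val] at h0 h1 h2
    have k : ∀ i, 5 * m i = 0 := by
      intro i
      refine neg_eq_zero.1 (hinj (5 * m' i) (-(5 * m i)) ?_).2
      ext j
      simp only [Pi.add_apply, Pi.smul_apply, smul_eq_mul, Pi.zero_apply]
      fin_cases i <;> fin_cases j <;> simp only [Fin.zero_eta, Fin.mk_one, Fin.reduceFinMk] <;>
        first
          | ring1
          | linear_combination h0
          | linear_combination -h0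
          | linear_combination h1
          | linear_combination -h1
          | linear_combination h2
          | linear_combination -h2
    have := (hinj 5 0 (by ext j; simpa using k j)).1
    revert this; decide
  · intro v hv
    have h1 := hs (e ⟨v, hv⟩ 0) (e ⟨v, hv⟩ 1)
    have h2 : ![e ⟨v, hv⟩ 0, e ⟨v, hv⟩ 1] = e ⟨v, hv⟩ := by ext i; fin_cases i <;> rfl
    rw [h2, LinearEquiv.symm_apply_apply] at h1
    simp only at h1
    rw [h1]
    simp only [Matrix.cons_val, Pi.add_apply, Pi.smul_apply, smul_eq_mul]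
    ring

def al : Fin 6 → ZMod 25 := ![1, 1, 1, 1, 1, 0]
def be : Fin 6 → ZMod 25 := ![0, 1, 2, 3, 4, 1]
def ga : Fin 6 → ZMod 25 := ![0, 0, 0, 0, 0, 1]
def de : Fin 6 → ZMod 25 := ![1, 1, 1, 1, 1, 0]
def c5 : Fin 5 → ZMod 25 := ![0, 1, 2, 3, 4]

theorem p1 : ∀ P Q : ZMod 25, (if 5 * P = 0 ∧ 5 * Q ≠ 0 then 1 else 0) +
    5 * (if P = 0 ∧ 5 * Q = 0 then 1 else 0) ≤ ∑ t : Fin 5, if P + 5 * c5 t * Q = 0 then 1 else 0 := by
  decide +kernel

theorem p2 : ∀ X Y : ZMod 25, (5 * X = 0 ∧ 5 * Y = 0) ∨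
    ∃ i, 5 * (al i * X + be i * Y) = 0 ∧ 5 * (ga i * X + de i * Y) ≠ 0 := by
  decide +kernel

theorem p3 : ∀ A Z : ZMod 25, 5 * A = 0 → 5 * Z ≠ 0 → ∃ c, A - 5 * c5 c * Z = 0 := by
  decide +kernel

theorem h25 : (25 : ZMod 25) = 0 := by decide

theorem cls {ι : Type} [Fintype ι] (K : ι → ℕ) (X Y Z : ι → ZMod 25)
    (hu : ∀ p, 5 * X p ≠ 0 ∨ 5 * Y p ≠ 0 ∨ 5 * Z p ≠ 0)
    (hl : ∀ a0 a1 a2 : ZMod 25, (5 * a0 ≠ 0 ∨ 5 * a1 ≠ 0) →
      ∑ p, K p * (if a0 * X p + a1 * Y p + a2 * Z p = 0 then 1 else 0) ≤ 27)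
    (h21 : 21 ≤ ∑ p, K p * (if 5 * X p = 0 ∧ 5 * Y p = 0 then 1 else 0)) : ∑ p, K p ≤ 685 := by
  set u := ∑ p, K p * (if 5 * X p = 0 ∧ 5 * Y p = 0 then 1 else 0) with hu'
  let W : Fin 6 → ℕ := fun i => ∑ p, K p * (if 5 * (al i * X p + be i * Y p) = 0 ∧
    5 * (ga i * X p + de i * Y p) ≠ 0 then 1 else 0)
  let sg : Fin 6 → Fin 5 → ℕ := fun i c => ∑ p, K p *
    (if al i * X p + be i * Y p - 5 * c5 c * Z p = 0 ∧ 5 * (ga i * X p + de i * Y p) = 0 then 1 else 0)
  have h1 : ∀ i c, W i + 5 * sg i c ≤ 135 := by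
    intro i c
    have hab : ∀ t, 5 * (al i + 5 * c5 t * ga i) ≠ 0 ∨ 5 * (be i + 5 * c5 t * de i) ≠ 0 := by
      revert i; decide +kernel
    have h2 := sum_le_sum fun t (_ : t ∈ (univ : Finset (Fin 5))) =>
      hl _ _ (-(5 * c5 c)) (hab t)
    rw [sum_comm] at h2
    refine le_trans ?_ (h2.trans (by simp))
    simp only [W, sg, mul_sum (a := 5), ← sum_add_distrib]
    refine sum_le_sum fun p _ => ?_
    rw [← mul_sum, mul_left_comm, ← mul_add]
    refine Nat.mul_le_mul_left _ ?_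
    have := p1 (al i * X p + be i * Y p - 5 * c5 c * Z p) (ga i * X p + de i * Y p)
    have e1 : 5 * (al i * X p + be i * Y p - 5 * c5 c * Z p) = 5 * (al i * X p + be i * Y p) := by
      linear_combination (-(c5 c * Z p)) * h25
    rw [e1] at this
    refine this.trans (le_of_eq (sum_congr rfl fun t _ => ?_))
    have e2 : al i * X p + be i * Y p - 5 * c5 c * Z p + 5 * c5 t * (ga i * X p + de i * Y p) =
        (al i + 5 * c5 t * ga i) * X p + (be i + 5 * c5 t * de i) * Y p + -(5 * c5 c) * Z p := by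
      ring
    rw [e2]
  have h2 : ∀ i, u ≤ ∑ c, sg i c := by
    intro i
    simp only [sg]
    rw [sum_comm]
    refine sum_le_sum fun p _ => ?_
    rw [← mul_sum]
    refine Nat.mul_le_mul_left _ ?_
    split_ifs with h
    · have hz : 5 * Z p ≠ 0 := by have := hu p; tauto
      obtain ⟨c, hc⟩ := p3 (al i * X p + be i * Y p) (Z p)
        (by linear_combination al i * h.1 + be i * h.2) hz
      refine le_trans ?_ (single_le_sum (fun c _ => Nat.zero_le _) (mem_univ c))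
      rw [if_pos ⟨hc, by linear_combination ga i * h.1 + de i * h.2⟩]
    · exact Nat.zero_le _
  have h3 : ∑ p, K p ≤ u + ∑ i, W i := by
    simp only [W, hu']
    rw [sum_comm, ← sum_add_distrib]
    refine sum_le_sum fun p _ => ?_
    rw [← mul_sum, ← mul_add]
    refine Nat.le_mul_of_pos_right _ ?_
    rcases p2 (X p) (Y p) with h | ⟨i, h⟩
    · rw [if_pos h]; omega
    · refine lt_of_lt_of_le ?_ ((single_le_sum (fun c _ => Nat.zero_le _) (mem_univ i)).trans
        (Nat.le_add_left _ _))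
      rw [if_pos h]; exact one_pos
  have h4 : ∀ i, W i + u ≤ 135 ∧ W i ≤ 110 := by
    intro i
    have a := h2 i
    rw [Fin.sum_univ_five] at a
    have b0 := h1 i 0
    have b1 := h1 i 1
    have b2 := h1 i 2
    have b3 := h1 i 3
    have b4 := h1 i 4
    omega
  rw [Fin.sum_univ_six] at h3
  have := h4 0
  have := h4 1
  have := h4 2
  have := h4 3
  have := h4 4
  have := h4 5
  omega

theorem p4 : ∀ x y : ZMod 25, 5 * x ≠ 0 → ∃ c, 5 * (y - c5 c * x) = 0 := by decide +kernel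

theorem upper (K : Point → ℕ) (k : ℕ) (h : IsArc K k 27) : k ≤ 685 := by
  classical
  choose v hv hp using gen
  obtain ⟨hk, hL⟩ := h
  rw [wt_eq] at hk
  simp only [Set.mem_univ, if_true] at hk
  rw [← hk]
  have hl : ∀ a0 a1 a2 : ZMod 25, (5 * a0 ≠ 0 ∨ 5 * a1 ≠ 0 ∨ 5 * a2 ≠ 0) →
      ∑ p, K p * (if a0 * v p 0 + a1 * v p 1 + a2 * v p 2 = 0 then 1 else 0) ≤ 27 := by
    intro a0 a1 a2 ha
    obtain ⟨L, h1, h2⟩ := line_of ![a0, a1, a2] ha
    refine le_trans ?_ (hL L h1)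
    rw [wt_eq]
    refine sum_le_sum fun p _ => ?_
    by_cases hh : a0 * v p 0 + a1 * v p 1 + a2 * v p 2 = 0
    · rw [if_pos hh, if_pos, mul_one]
      simp only [Set.mem_ofPred_eq]
      rw [hp p, Submodule.span_le]
      simpa using h2 _ hh
    · simp [hh]
  by_contra hcon
  have hA : ∀ y z : Fin 5, ∑ p, K p * (if 5 * (v p 1 - c5 y * v p 0) = 0 ∧
      5 * (v p 2 - c5 z * v p 0) = 0 then 1 else 0) ≤ 20 := by
    intro y z
    by_contra h21
    refine hcon (cls K (fun p => v p 1 - c5 y * v p 0) (fun p => v p 2 - c5 z * v p 0)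
      (fun p => v p 0) (fun p => ?_) (fun a0 a1 a2 ha => ?_) (by omega))
    · by_contra hh
      push Not at hh
      rcases hv p with h | h | h
      · exact h hh.2.2
      · exact h (by linear_combination hh.1 + c5 y * hh.2.2)
      · exact h (by linear_combination hh.2.1 + c5 z * hh.2.2)
    · refine le_trans (le_of_eq (sum_congr rfl fun p _ => ?_))
        (hl (a2 - a0 * c5 y - a1 * c5 z) a0 a1 (Or.inr ha))
      have : a0 * (v p 1 - c5 y * v p 0) + a1 * (v p 2 - c5 z * v p 0) + a2 * v p 0 =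
        (a2 - a0 * c5 y - a1 * c5 z) * v p 0 + a0 * v p 1 + a1 * v p 2 := by ring
      rw [this]
  have hB : ∀ z : Fin 5, ∑ p, K p * (if 5 * v p 0 = 0 ∧
      5 * (v p 2 - c5 z * v p 1) = 0 then 1 else 0) ≤ 20 := by
    intro z
    by_contra h21
    refine hcon (cls K (fun p => v p 0) (fun p => v p 2 - c5 z * v p 1)
      (fun p => v p 1) (fun p => ?_) (fun a0 a1 a2 ha => ?_) (by omega))
    · by_contra hh
      push Not at hh
      rcases hv p with h | h | h
      · exact h hh.1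
      · exact h hh.2.2
      · exact h (by linear_combination hh.2.1 + c5 z * hh.2.2)
    · refine le_trans (le_of_eq (sum_congr rfl fun p _ => ?_))
        (hl a0 (a2 - a1 * c5 z) a1 (by tauto))
      have : a0 * v p 0 + a1 * (v p 2 - c5 z * v p 1) + a2 * v p 1 =
        a0 * v p 0 + (a2 - a1 * c5 z) * v p 1 + a1 * v p 2 := by ring
      rw [this]
  have hC : ∑ p, K p * (if 5 * v p 0 = 0 ∧ 5 * v p 1 = 0 then 1 else 0) ≤ 20 := by
    by_contra h21
    exact hcon (cls K (fun p => v p 0) (fun p => v p 1) (fun p => v p 2) hv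
      (fun a0 a1 a2 ha => hl a0 a1 a2 (by tauto)) (by omega))
  have hA' := sum_le_sum fun (yz : Fin 5 × Fin 5) (_ : yz ∈ univ) => hA yz.1 yz.2
  have hB' := sum_le_sum fun (z : Fin 5) (_ : z ∈ univ) => hB z
  rw [sum_comm] at hA' hB'
  have := add_le_add (add_le_add hA' hB') hC
  rw [← sum_add_distrib, ← sum_add_distrib] at this
  refine hcon (le_trans (sum_le_sum fun p _ => ?_) (this.trans (by simp)))
  rw [← mul_sum, ← mul_sum, ← mul_add, ← mul_add]
  refine Nat.le_mul_of_pos_right _ ?_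
  by_cases h0 : 5 * v p 0 = 0
  · by_cases h1 : 5 * v p 1 = 0
    · rw [if_pos ⟨h0, h1⟩]; omega
    · obtain ⟨z, hz⟩ := p4 _ (v p 2) h1
      refine Nat.add_pos_left (Nat.add_pos_right _ (lt_of_lt_of_le ?_
        (single_le_sum (fun c _ => Nat.zero_le _) (mem_univ z)))) _
      rw [if_pos ⟨h0, hz⟩]; exact one_pos
  · obtain ⟨y, hy⟩ := p4 _ (v p 1) h0
    obtain ⟨z, hz⟩ := p4 _ (v p 2) h0
    refine Nat.add_pos_left (Nat.add_pos_left (lt_of_lt_of_le ?_
      (single_le_sum (fun c _ => Nat.zero_le _) (mem_univ (y, z)))) _) _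
    rw [if_pos ⟨hy, hz⟩]; exact one_pos

/-- the sixty points in the class of the line at infinity -/
def w2 (c : Fin 6) (s : Fin 5) (b : Fin 2) : Fin 3 → ZMod 25 :=
  if c = 5 then ![5 * c5 s, 1, 0] else ![1, be c + 5 * c5 s, 5 * (be c + c5 b.castSucc.castSucc.castSucc)]

def w : (ZMod 25 × ZMod 25) ⊕ (Fin 6 × Fin 5 × Fin 2) → Fin 3 → ZMod 25
  | Sum.inl x => ![x.1, x.2, 1]
  | Sum.inr x => w2 x.1 x.2.1 x.2.2

theorem w_uni : ∀ i, 5 * w i 0 ≠ 0 ∨ 5 * w i 1 ≠ 0 ∨ 5 * w i 2 ≠ 0 := by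
  rintro (x | ⟨c, s, b⟩)
  · right; right; simp only [w, Matrix.cons_val]; decide
  · simp only [w]; revert c s b; decide +kernel

noncomputable def pt (i : (ZMod 25 × ZMod 25) ⊕ (Fin 6 × Fin 5 × Fin 2)) : Point :=
  ⟨_, point_of (w i) (w_uni i)⟩

def cnt (a0 a1 a2 : ZMod 25) : ℕ := ∑ c : Fin 6, ∑ s : Fin 5, ∑ b : Fin 2,
  if a0 * w2 c s b 0 + a1 * w2 c s b 1 + a2 * w2 c s b 2 = 0 then 1 else 0

theorem cnt_ok1 : ∀ a0 a1 : ZMod 25, (5 * a0 ≠ 0 ∨ 5 * a1 ≠ 0) → ∀ c : Fin 5,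
    cnt a0 a1 (c5 c) ≤ 2 := by decide +kernel

theorem cnt_ok2 : ∀ a0 a1 : ZMod 25, 5 * a0 = 0 → 5 * a1 = 0 → ∀ c : Fin 5, c ≠ 0 →
    cnt a0 a1 (c5 c) ≤ 27 := by decide +kernel

theorem p5 : ∀ a : ZMod 25, ∃ c : Fin 5, 5 * a = 5 * c5 c ∧ (5 * a ≠ 0 → c ≠ 0) := by
  decide +kernel

theorem p6 : ∀ c s b, ∃ r, w2 c s b 2 = 5 * r := by decide +kernel

theorem count (a0 a1 a2 : ZMod 25) (h : 5 * a0 ≠ 0 ∨ 5 * a1 ≠ 0 ∨ 5 * a2 ≠ 0) :
    ∑ i, (if a0 * w i 0 + a1 * w i 1 + a2 * w i 2 = 0 then 1 else 0) ≤ 27 := by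
  obtain ⟨c0, hc0, hc1⟩ := p5 a2
  have e2 : ∑ x : Fin 6 × Fin 5 × Fin 2, (if a0 * w (Sum.inr x) 0 + a1 * w (Sum.inr x) 1 +
      a2 * w (Sum.inr x) 2 = 0 then 1 else 0) = cnt a0 a1 (c5 c0) := by
    rw [Fintype.sum_prod_type, cnt]
    refine sum_congr rfl fun c _ => ?_
    rw [Fintype.sum_prod_type]
    refine sum_congr rfl fun s _ => sum_congr rfl fun b _ => ?_
    obtain ⟨r, hr⟩ := p6 c s b
    have : a2 * w2 c s b 2 = c5 c0 * w2 c s b 2 := by rw [hr]; linear_combination r * hc0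
    simp only [w, this]
  have e1 : ∑ x : ZMod 25 × ZMod 25, (if a0 * w (Sum.inl x) 0 + a1 * w (Sum.inl x) 1 +
      a2 * w (Sum.inl x) 2 = 0 then 1 else 0) =
      (univ.filter fun x : ZMod 25 × ZMod 25 => a0 * x.1 + a1 * x.2 + a2 = 0).card := by
    rw [card_filter]
    refine sum_congr rfl fun x _ => ?_
    simp only [w, Matrix.cons_val, mul_one]
  rw [Fintype.sum_sum_type, e1, e2]
  by_cases h01 : 5 * a0 ≠ 0 ∨ 5 * a1 ≠ 0
  · have h1 := cnt_ok1 a0 a1 h01 c0
    have h2 : (univ.filter fun x : ZMod 25 × ZMod 25 => a0 * x.1 + a1 * x.2 + a2 = 0).card ≤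
        (univ : Finset (ZMod 25)).card := by
      rcases h01 with h0 | h0
      · obtain ⟨y, hy⟩ := unit_of _ h0
        refine card_le_card_of_injOn Prod.snd (fun _ _ => mem_coe.2 (mem_univ _)) ?_
        intro x hx x' hx' e
        simp only [coe_filter, Set.mem_ofPred_eq, mem_univ, true_and] at hx hx'
        refine Prod.ext ?_ e
        rw [← e] at hx'
        linear_combination y * hx - y * hx' - (x.1 - x'.1) * hy
      · obtain ⟨y, hy⟩ := unit_of _ h0
        refine card_le_card_of_injOn Prod.fst (fun _ _ => mem_coe.2 (mem_univ _)) ?_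
        intro x hx x' hx' e
        simp only [coe_filter, Set.mem_ofPred_eq, mem_univ, true_and] at hx hx'
        refine Prod.ext e ?_
        rw [← e] at hx'
        linear_combination y * hx - y * hx' - (x.2 - x'.2) * hy
    rw [card_univ, ZMod.card] at h2
    omega
  · push Not at h01
    have h2 : 5 * a2 ≠ 0 :=
      (h.resolve_left (not_not.2 h01.1)).resolve_left (not_not.2 h01.2)
    have h1 := cnt_ok2 a0 a1 h01.1 h01.2 c0 (hc1 h2)
    have h3 : (univ.filter fun x : ZMod 25 × ZMod 25 => a0 * x.1 + a1 * x.2 + a2 = 0) = ∅ := by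
      rw [filter_eq_empty_iff]
      intro x _ hx
      exact h2 (by linear_combination 5 * hx - x.1 * h01.1 - x.2 * h01.2)
    rw [h3, card_empty]; omega

open Classical in
theorem wt_gen {ι : Type} [Fintype ι] (f : ι → Point) (S : Set Point) :
    wt (fun p => ∑ i, if f i = p then 1 else 0) S = ∑ i, if f i ∈ S then 1 else 0 := by
  rw [wt_eq]
  have : ∀ p, (if p ∈ S then ∑ i, (if f i = p then 1 else 0) else 0) =
      ∑ i, if f i = p then (if p ∈ S then 1 else 0) else 0 := by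
    intro p
    by_cases h : p ∈ S <;> simp [h]
  simp only [this]
  rw [sum_comm]
  simp

open Classical in
noncomputable def KK (p : Point) : ℕ := ∑ i, if pt i = p then 1 else 0

open Classical in
theorem wt_KK (S : Set Point) : wt KK S = ∑ i, if pt i ∈ S then 1 else 0 := wt_gen pt S

/-- In the projective Hjelmslev plane over `ZMod 25` (`q = 5`) there is a maximal `(685, 27)`-arc
with a point of multiplicity at least two. -/
theorem result : ∃ K : Point → ℕ, IsMaximalArc K 685 27 ∧ ∃ p : Point, 2 ≤ K p := by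
  classical
  refine ⟨KK, ⟨⟨?_, fun L hL => ?_⟩, upper⟩, pt (Sum.inr (5, 0, 0)), ?_⟩
  · rw [wt_KK]
    simp only [Set.mem_univ, if_true]
    rw [sum_const, card_univ, Fintype.card_sum, Fintype.card_prod, Fintype.card_prod,
      Fintype.card_prod, ZMod.card, Fintype.card_fin, Fintype.card_fin, Fintype.card_fin]
    norm_num
  · obtain ⟨a, ha, hLa⟩ := eq_of_line L hL
    rw [wt_KK]
    refine le_trans (sum_le_sum fun i _ => ?_) (count _ _ _ ha)
    by_cases h : pt i ∈ {p : Point | p.1 ≤ L}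
    · rw [if_pos h, if_pos (hLa _ (h (Submodule.mem_span_singleton_self _)))]
    · rw [if_neg h]; exact Nat.zero_le _
  · have hne : (Sum.inr (5, 0, 0) : (ZMod 25 × ZMod 25) ⊕ (Fin 6 × Fin 5 × Fin 2)) ≠
        Sum.inr (5, 0, 1) := by simp
    have he : pt (Sum.inr (5, 0, 1)) = pt (Sum.inr (5, 0, 0)) := by
      apply Subtype.ext
      simp only [pt, w, w2, if_true]
    refine le_trans ?_ (sum_le_sum_of_subset (subset_univ {Sum.inr (5, 0, 0), Sum.inr (5, 0, 1)}))
    rw [sum_pair hne, if_pos rfl, if_pos he]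

end Pool.Agent.Results.MP_4f92f0_co.Counter
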